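import Mathlib
import Pool.Agent.X20.Doubled
import Pool.Agent.X20.DoubledGF

/-! The content-hook sums `a_n`, `b_n` have generating function `∏ (1+x^{4k-2})^{-1}`. -/

namespace Pool.Agent.Results.MP_3e0fcf_co.ContentHookSum

open Finset PowerSeries Pool.Agent.X20.Doubled

/-- `a_n = ∑_{μ ⊢ n} ∏_{c ∈ μ} c_sp(c) / h(c)`. -/
noncomputable def a (n : ℕ) : ℚ :=
  ∑ μ ∈ diagrams n, ∏ c ∈ μ.cells, ((csp μ c : ℚ) / (hook μ c : ℚ))

/-- `b_n = ∑_{μ ⊢ n} ∏_{c ∈ μ} c_O(c) / h(c)`. -/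
noncomputable def b (n : ℕ) : ℚ :=
  ∑ μ ∈ diagrams n, ∏ c ∈ μ.cells, ((cO μ c : ℚ) / (hook μ c : ℚ))

theorem b_eq (n : ℕ) : b n = (-1) ^ n * a n := by
  unfold a b
  rw [← sum_transpose, Finset.mul_sum]
  apply Finset.sum_congr rfl
  intro μ hμ
  rw [mem_diagrams] at hμ
  rw [prod_transpose]
  simp only [csp_transpose, hook_transpose]
  rw [← hμ, YoungDiagram.card, ← Finset.prod_const, ← Finset.prod_mul_distrib]
  apply Finset.prod_congr rfl
  intro c _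
  push_cast
  ring

theorem a_eq (K n : ℕ) (hn : n < 4 * K + 2) :
    a n = coeff n (∏ k ∈ range K, (1 + X ^ (4 * k + 2)) : ℚ⟦X⟧)⁻¹ := by
  have h1 : (∏ k ∈ range K, (1 + X ^ (4 * k + 2)) : ℚ⟦X⟧) =
      ∏ k ∈ range K, (1 - Z (-1) ^ (2 * k + 1)) := by
    apply Finset.prod_congr rfl
    intro k _
    rw [Z_pow, Odd.neg_one_pow ⟨k, rfl⟩]
    simp only [map_neg, map_one]
    ring
  rw [h1, coeff_inv _ _ _ hn]
  exact sum_diagrams (fun q => q) rfl (by omega)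

theorem a_odd (n : ℕ) (hn : n % 2 = 1) : a n = 0 := by
  have h := sum_diagrams (fun q => q) rfl (show n < 2 * n + 2 by omega)
  have h2 : stricts n n = ∅ := by
    unfold stricts
    rw [Finset.filter_eq_empty_iff]
    intro S _
    omega
  rw [h2, Finset.sum_empty] at h
  exact h

/-- For every `K` and every `n < 4K + 2`, the sums `a_n` and `b_n` are equal to the coefficient
of `x^n` in `∏_{k=1}^{K} (1 + x^{4k-2})^{-1}`.  (The factors with `k > K` do not influence the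
coefficients of `x^n` with `n < 4K+2`; so this is the formal identity
`∑ a_n x^n = ∑ b_n x^n = ∏_{k ≥ 1} (1 + x^{4k-2})^{-1}`.) -/
theorem result : ∀ K n : ℕ, n < 4 * K + 2 →
    a n = coeff n (∏ k ∈ range K, (1 + X ^ (4 * k + 2)) : ℚ⟦X⟧)⁻¹ ∧
    b n = coeff n (∏ k ∈ range K, (1 + X ^ (4 * k + 2)) : ℚ⟦X⟧)⁻¹ := by
  intro K n hn
  refine ⟨a_eq K n hn, ?_⟩
  rw [← a_eq K n hn, b_eq]
  rcases Nat.mod_two_eq_zero_or_one n with h | h
  · rw [(Nat.even_iff.mpr h).neg_one_pow, one_mul]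
  · rw [a_odd n h, mul_zero]

end Pool.Agent.Results.MP_3e0fcf_co.ContentHookSum
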